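import Pool.Agent.V11281.FTVS.NotLC

/-!
# The `k`-property of the levels `sp 2` and `sp 4`
-/

set_option autoImplicit false

open Set Topology

namespace Pool.Agent.Results.MP_24cde2_gt.LevelTwoKSpace

open Pool.Agent.V11281.FTVS

universe u

/-- **MP_24cde2_gt, Q1 (yes).** If `X` is metrizable and `sp 2` is a `k`-space, then `sp 4` is a
`k`-space. Moreover `X` is separable and locally compact and every `sp n` is a `k`-space. -/
theorem result {X : Type u} [TopologicalSpace X] [TopologicalSpace.MetrizableSpace X]
    (h : IsKSpace (sp X 2)) :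
    IsKSpace (sp X 4) ∧ TopologicalSpace.SeparableSpace X ∧ WeaklyLocallyCompactSpace X ∧
      ∀ n, IsKSpace (sp X n) :=
  ⟨(main le_rfl h).2.2 4, main le_rfl h⟩

end Pool.Agent.Results.MP_24cde2_gt.LevelTwoKSpace
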